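import Pool.Agent.Y957.VK.Fin3
import Pool.Agent.Y957.VK.Riu

/-!
# Orbits of one-parameter subgroups along the primes

Let `G` be a locally compact second countable group, for example a Lie group, `Γ` a subgroup with
Hausdorff quotient `G / Γ`, for example a lattice, `u` a one-parameter subgroup of `G` and `x` a point of
`G / Γ`.  Write `p_1 < p_2 < …` for the primes.

(1) For almost every `α > 0`: for all continuous functions `f` with compact support,
`(1 / N) ∑_{n ≤ N} f (u (α p_n) x)` is asymptotic to the average of `f (u t x)` over `0 ≤ t ≤ α p_N`; so it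
has the same limit as the averages of `f (u t x)` over long intervals, if they converge.

(2) If `a s` are elements of `G` with `a s u(t) = u(exp (c s) t) a s` for a constant `c ≠ 0`, then for
almost every `s` the same holds at the point `a s x` with `α = 1`, that is, for `u (p_n) a s x`.
-/

set_option autoImplicit false

namespace Pool.Agent.Results.MP_ffdc5d_an.AlmostEverySpeed

open Filter Topology MeasureTheory

/-- `p_N`, the `N`-th prime (`N ≥ 1`) -/
noncomputable def nthPrime (N : ℕ) : ℕ := Nat.nth Nat.Prime (N - 1)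

/-- the averages of `f` along `u (α p_1) y, …, u (α p_N) y` are asymptotic to the averages along
`u t y`, `0 ≤ t ≤ α p_N`, and have the same limit if the latter converge -/
def PrimesLikeTime {G Y : Type} [Group G] [MulAction G Y] (u : ℝ → G) (α : ℝ) (y : Y) (f : Y → ℝ) :
    Prop :=
  Tendsto (fun N : ℕ => (1 / (N : ℝ)) * ∑ n ∈ Finset.Icc 1 N, f (u (α * nthPrime n) • y) -
    (1 / (α * nthPrime N)) * ∫ t in (0 : ℝ)..(α * nthPrime N), f (u t • y)) atTop (𝓝 0) ∧
  ∀ L : ℝ, Tendsto (fun T : ℝ => (1 / T) * ∫ t in (0 : ℝ)..T, f (u t • y)) atTop (𝓝 L) →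
    Tendsto (fun N : ℕ => (1 / (N : ℝ)) * ∑ n ∈ Finset.Icc 1 N, f (u (α * nthPrime n) • y)) atTop (𝓝 L)

theorem sum_shift (b : ℕ → ℝ) (N : ℕ) :
    ∑ k ∈ Finset.range N, b (Nat.nth Nat.Prime k) = ∑ n ∈ Finset.Icc 1 N, b (nthPrime n) := by
  induction N with
  | zero => simp
  | succ N ih =>
    rw [Finset.sum_range_succ, ih, Finset.sum_Icc_succ_top (by omega)]
    rfl

theorem of_pdif {G Y : Type} [Group G] [MulAction G Y] (u : ℝ → G) (α : ℝ) (hα : 0 < α) (y : Y)
    (f : Y → ℝ)
    (h : Tendsto (Pool.Agent.Y957.VK.pdif f (fun t z => u t • z) α y) atTop (𝓝 0)) :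
    PrimesLikeTime u α y f := by
  have h1 : Tendsto (fun N : ℕ => (1 / (N : ℝ)) * ∑ n ∈ Finset.Icc 1 N, f (u (α * nthPrime n) • y) -
      (1 / (α * nthPrime N)) * ∫ t in (0 : ℝ)..(α * nthPrime N), f (u t • y)) atTop (𝓝 0) := by
    refine h.congr fun N => ?_
    unfold Pool.Agent.Y957.VK.pdif Pool.Agent.Y957.VK.pr
    rw [sum_shift (fun m => f (u (α * m) • y))]
    rfl
  refine ⟨h1, fun L hL => ?_⟩
  have h2 : Tendsto (fun N : ℕ => α * (nthPrime N : ℝ)) atTop atTop :=
    (tendsto_natCast_atTop_atTop.comp Pool.Agent.Y957.VK.pr_tendsto).const_mul_atTop hα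
  have h3 := h1.add (hL.comp h2)
  rw [zero_add] at h3
  refine h3.congr fun N => ?_
  simp only [Function.comp_apply, sub_add_cancel]

theorem result (G : Type) [Group G] [TopologicalSpace G] [IsTopologicalGroup G]
    [LocallyCompactSpace G] [SecondCountableTopology G] (Γ : Subgroup G) [T2Space (G ⧸ Γ)]
    (u : ℝ → G) (hu : Continuous u) (hadd : ∀ s t, u (s + t) = u s * u t) (x : G ⧸ Γ) :
    (∀ᵐ α : ℝ, 0 < α → ∀ f : G ⧸ Γ → ℝ, Continuous f → HasCompactSupport f → PrimesLikeTime u α x f) ∧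
    ∀ (a : ℝ → G) (c : ℝ), c ≠ 0 → (∀ s t, a s * u t = u (Real.exp (c * s) * t) * a s) →
      ∀ᵐ s : ℝ, ∀ f : G ⧸ Γ → ℝ, Continuous f → HasCompactSupport f →
        PrimesLikeTime u 1 (a s • x) f := by
  obtain ⟨h1, h2⟩ := Pool.Agent.Y957.VK.marg Pool.Agent.Y957.VK.wuc_all Pool.Agent.Y957.VK.lw_all
    Pool.Agent.Y957.VK.pr_all Pool.Agent.Y957.VK.riu u hu hadd x
  refine ⟨?_, fun a c hc hau => ?_⟩
  · filter_upwards [h1] with α hα h0 f hf hs
    exact of_pdif u α h0 x f (hα h0 f hf hs)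
  · filter_upwards [h2 a c hc hau] with s hs f hf hfs
    exact of_pdif u 1 one_pos _ f (hs f hf hfs)

end Pool.Agent.Results.MP_ffdc5d_an.AlmostEverySpeed
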